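import Mathlib

set_option autoImplicit false

/-!
# Towers generated by a germ

`tw c k j` is the value at position `j` of level `k` of the tower whose values at position `0`
are given by the germ `c : ℤ → G`, the differences of level `k` being the values of level `k-1`
(each taken twice).  For the constant germ `1` every level is the sequence `a n = b_2 (2 n)`.
-/

namespace Pool.Agent.helper10.BPC

/-- `a n = b_2 (2 n)`. -/
def a : ℕ → ℕ
  | 0 => 1
  | (n + 1) => a n + a ((n + 1) / 2)
decreasing_by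
  all_goals omega

theorem a_zero : a 0 = 1 := by rw [a]

theorem a_succ (n : ℕ) : a (n + 1) = a n + a ((n + 1) / 2) := by rw [a]

section Tower

variable {G : Type*} [AddCommGroup G]

/-- the tower generated by a germ -/
def tw (c : ℤ → G) : ℤ → ℕ → G
  | k, 0 => c k
  | k, (j + 1) => tw c k j + tw c (k - 1) ((j + 1) / 2)
termination_by _ j => j
decreasing_by
  all_goals omega

@[simp] theorem tw_zero (c : ℤ → G) (k : ℤ) : tw c k 0 = c k := by rw [tw]

theorem tw_succ (c : ℤ → G) (k : ℤ) (j : ℕ) :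
    tw c k (j + 1) = tw c k j + tw c (k - 1) ((j + 1) / 2) := by rw [tw]

theorem tw_one (c : ℤ → G) (k : ℤ) : tw c k 1 = c k + c (k - 1) := by
  have := tw_succ c k 0
  simpa using this

/-- the tower of a constant germ -/
theorem tw_const (g : G) (j : ℕ) : ∀ k : ℤ, tw (fun _ => g) k j = (a j) • g := by
  induction j using Nat.strong_induction_on with
  | _ j ih =>
    intro k
    rcases j with _ | j
    · simp [a_zero]
    · rw [tw_succ, ih j (by omega), ih ((j + 1) / 2) (by omega), a_succ, add_smul]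

theorem tw_add (c d : ℤ → G) (j : ℕ) : ∀ k : ℤ, tw (c + d) k j = tw c k j + tw d k j := by
  induction j using Nat.strong_induction_on with
  | _ j ih =>
    intro k
    rcases j with _ | j
    · simp
    · rw [tw_succ, tw_succ, tw_succ, ih j (by omega), ih ((j + 1) / 2) (by omega)]
      abel

theorem tw_map {H : Type*} [AddCommGroup H] (φ : G →+ H) (c : ℤ → G) (j : ℕ) :
    ∀ k : ℤ, tw (fun i => φ (c i)) k j = φ (tw c k j) := by
  induction j using Nat.strong_induction_on with
  | _ j ih =>
    intro k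
    rcases j with _ | j
    · simp
    · rw [tw_succ, tw_succ, ih j (by omega), ih ((j + 1) / 2) (by omega), map_add]

theorem tw_congr (c d : ℤ → G) (j : ℕ) :
    ∀ k : ℤ, (∀ i ≤ k, c i = d i) → tw c k j = tw d k j := by
  induction j using Nat.strong_induction_on with
  | _ j ih =>
    intro k h
    rcases j with _ | j
    · simpa using h k le_rfl
    · rw [tw_succ, tw_succ, ih j (by omega) k h,
        ih ((j + 1) / 2) (by omega) (k - 1) (fun i hi => h i (by omega))]

theorem tw_zero_germ (j : ℕ) (k : ℤ) : tw (fun _ => (0 : G)) k j = 0 := by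
  rw [tw_const, smul_zero]

theorem tw_below (c : ℤ → G) (k : ℤ) (h : ∀ i ≤ k, c i = 0) (j : ℕ) : tw c k j = 0 := by
  rw [tw_congr c (fun _ => 0) j k h, tw_zero_germ]

theorem tw_lead (c : ℤ → G) (k : ℤ) (h : ∀ i < k, c i = 0) (j : ℕ) : tw c k j = c k := by
  induction j with
  | zero => simp
  | succ j ih =>
    rw [tw_succ, ih, tw_below c (k - 1) (fun i hi => h i (by omega)), add_zero]

/-- restart lemma -/
theorem restart (c d : ℤ → G) (P : ℤ → ℕ) (j : ℕ) : ∀ (k : ℤ) (L : ℕ),
    (∀ i, k - L < i → i ≤ k → P i = 2 * P (i - 1)) →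
    (∀ i, k - L ≤ i → i ≤ k → tw c i (P i) = d i) → j < 2 ^ L →
    tw c k (P k + j) = tw d k j := by
  induction j using Nat.strong_induction_on with
  | _ j ih =>
    intro k L h1 h2 h3
    rcases j with _ | j
    · simpa using h2 k (by omega) le_rfl
    · rcases L with _ | L
      · simp at h3
      · have e1 := h1 k (by push_cast; omega) le_rfl
        have e2 : (P k + j + 1) / 2 = P (k - 1) + (j + 1) / 2 := by omega
        rw [← add_assoc, tw_succ, tw_succ, e2,
          ih j (by omega) k (L + 1) h1 h2 (by omega),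
          ih ((j + 1) / 2) (by omega) (k - 1) L
            (fun i hi hi' => h1 i (by push_cast; omega) (by omega))
            (fun i hi hi' => h2 i (by push_cast; omega) (by omega))
            (by rw [pow_succ] at h3; omega)]

end Tower

/-- propagation lemma -/
theorem propagate {G : Type*} [AddCommGroup G] (B : ℕ → ℕ → G) (R : ℕ)
    (hB : ∀ r j, B (r + 1) (j + 1) = B (r + 1) j + B r ((j + 1) / 2))
    (h0 : ∀ r ≤ R, B r 0 = 0) (i : ℕ) (hi : ∀ j < i, B 0 j = 0) (hi0 : 0 < i) :
    ∀ r ≤ R, (∀ j < 2 ^ r * i, B r j = 0) ∧ B r (2 ^ r * i) = B 0 i := by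
  intro r
  induction r with
  | zero => intro _; simpa using hi
  | succ r ih =>
    intro hr
    obtain ⟨ih1, ih2⟩ := ih (by omega)
    have key : ∀ j < 2 ^ (r + 1) * i, B (r + 1) j = 0 := by
      intro j
      induction j with
      | zero => intro _; exact h0 _ hr
      | succ j ihj =>
        intro hj
        rw [hB, ihj (by omega), zero_add]
        apply ih1
        have : 2 ^ (r + 1) * i = 2 * (2 ^ r * i) := by ring
        omega
    refine ⟨key, ?_⟩
    have hpos : 0 < 2 ^ r * i := by positivity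
    have e : 2 ^ (r + 1) * i = 2 * (2 ^ r * i) := by ring
    obtain ⟨j, hj⟩ : ∃ j, 2 ^ (r + 1) * i = j + 1 := ⟨2 ^ (r + 1) * i - 1, by omega⟩
    rw [hj, hB, key j (by omega), zero_add, ← ih2]
    congr 1
    omega

/-- position of the point `n` on level `k` -/
def pos (k : ℤ) (n : ℕ) : ℕ := 2 ^ k.toNat * n / 2 ^ (-k).toNat

theorem pos_mul (K : ℕ) (k : ℤ) (hk : -(K : ℤ) ≤ k) (m : ℕ) :
    pos k (2 ^ K * m) = 2 ^ (k + K).toNat * m := by
  unfold pos
  rcases le_total 0 k with h | h
  · obtain ⟨k', rfl⟩ := Int.eq_ofNat_of_zero_le h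
    have e1 : (-(k' : ℤ)).toNat = 0 := by omega
    have e2 : ((k' : ℤ) + K).toNat = k' + K := by omega
    rw [e1, e2]
    simp [pow_add, mul_assoc]
  · obtain ⟨k', hk'⟩ := Int.eq_ofNat_of_zero_le (a := -k) (by omega)
    have e1 : (-k).toNat = k' := by omega
    have e0 : k.toNat = 0 := by omega
    have e2 : (k + K).toNat = K - k' := by omega
    have e3 : 2 ^ K = 2 ^ k' * 2 ^ (K - k') := by
      rw [← pow_add]; congr 1; omega
    rw [e1, e0, e2, e3]
    simp only [pow_zero, one_mul]
    rw [mul_assoc, Nat.mul_div_cancel_left _ (by positivity)]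

theorem pos_mul_add (K : ℕ) (k : ℤ) (hk : -(K : ℤ) ≤ k) (m n : ℕ) :
    pos k (2 ^ K * m + n) = 2 ^ (k + K).toNat * m + pos k n := by
  rw [← pos_mul K k hk m]
  unfold pos
  rcases le_total 0 k with h | h
  · have e1 : (-k).toNat = 0 := by omega
    rw [e1]
    simp [mul_add]
  · have e0 : k.toNat = 0 := by omega
    rw [e0]
    have e3 : 2 ^ K * m = 2 ^ (-k).toNat * (2 ^ (K - (-k).toNat) * m) := by
      rw [← mul_assoc, ← pow_add]; congr 2; omega
    simp only [pow_zero, one_mul]
    rw [e3, Nat.mul_add_div (by positivity), Nat.mul_div_cancel_left _ (by positivity)]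

theorem pos_add {K : ℕ} {k : ℤ} (hk : -(K : ℤ) ≤ k) {m : ℕ} (hm : 2 ^ K ∣ m) (n : ℕ) :
    pos k (m + n) = pos k m + pos k n := by
  obtain ⟨m', rfl⟩ := hm
  rw [pos_mul_add K k hk, pos_mul K k hk]

theorem pos_double {K : ℕ} {k : ℤ} (hk : -(K : ℤ) < k) {m : ℕ} (hm : 2 ^ K ∣ m) :
    pos k m = 2 * pos (k - 1) m := by
  obtain ⟨m', rfl⟩ := hm
  rw [pos_mul K k (by omega), pos_mul K (k - 1) (by omega), ← mul_assoc, ← pow_succ']
  congr 2
  omega

theorem pos_two_mul (k : ℤ) (n : ℕ) : pos k (2 * n) = pos (k + 1) n := by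
  unfold pos
  rcases le_or_gt 0 k with h | h
  · have e1 : (-k).toNat = 0 := by omega
    have e2 : (-(k + 1)).toNat = 0 := by omega
    have e3 : (k + 1).toNat = k.toNat + 1 := by omega
    rw [e1, e2, e3, pow_succ, mul_assoc]
  · have e1 : (-k).toNat = (-(k + 1)).toNat + 1 := by omega
    have e2 : k.toNat = 0 := by omega
    have e3 : (k + 1).toNat = 0 := by omega
    rw [e1, e2, e3, pow_succ']
    simp only [pow_zero, one_mul]
    rw [Nat.mul_div_mul_left _ _ (by norm_num)]

theorem pos_zero (n : ℕ) : pos 0 n = n := by simp [pos]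

theorem pos_one (n : ℕ) : pos 1 n = 2 * n := by simp [pos]

theorem pos_neg_lt (K : ℕ) (n : ℕ) : pos (-(K : ℤ)) n = n / 2 ^ K := by
  unfold pos
  have e1 : (-(-(K : ℤ))).toNat = K := by omega
  have e2 : (-(K : ℤ)).toNat = 0 := by omega
  rw [e1, e2]; simp

end Pool.Agent.helper10.BPC
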