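import Mathlib
import Pool.Agent.helper10.BPC.Basic

set_option autoImplicit false

/-!
# The action of 2-adically small ultrafilters on germs
-/

namespace Pool.Agent.helper10.BPC

open Filter

attribute [local instance] Ultrafilter.add Ultrafilter.addSemigroup

section PL

variable {G : Type*}

theorem exists_pl [Finite G] (p : Ultrafilter ℕ) (f : ℕ → G) : ∃ g : G, ∀ᶠ n in p, f n = g := by
  rw [← Ultrafilter.eventually_exists_iff]
  exact Eventually.of_forall fun n => ⟨_, rfl⟩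

/-- ultrafilter limit in a finite set -/
noncomputable def pl [Finite G] (p : Ultrafilter ℕ) (f : ℕ → G) : G := (exists_pl p f).choose

theorem pl_spec [Finite G] (p : Ultrafilter ℕ) (f : ℕ → G) : ∀ᶠ n in p, f n = pl p f :=
  (exists_pl p f).choose_spec

theorem pl_eq [Finite G] {p : Ultrafilter ℕ} {f : ℕ → G} {g : G} (h : ∀ᶠ n in p, f n = g) :
    pl p f = g := by
  obtain ⟨n, h1, h2⟩ := (h.and (pl_spec p f)).exists
  rw [← h1, h2]

end PL

/-- ultrafilters concentrated near `0` in the 2-adic sense -/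
def E : Set (Ultrafilter ℕ) := {p | ∀ K : ℕ, ∀ᶠ n in (p : Filter ℕ), 0 < n ∧ 2 ^ K ∣ n}

section Act

variable {G : Type*} [AddCommGroup G] [Finite G]

/-- action on germs -/
noncomputable def act (p : Ultrafilter ℕ) (c : ℤ → G) : ℤ → G :=
  fun k => pl p (fun n => tw c k (pos k n))

theorem act_spec (p : Ultrafilter ℕ) (c : ℤ → G) (k : ℤ) :
    ∀ᶠ n in p, tw c k (pos k n) = act p c k := pl_spec p _

theorem act_eq {p : Ultrafilter ℕ} {c : ℤ → G} {k : ℤ} {g : G}
    (h : ∀ᶠ n in p, tw c k (pos k n) = g) : act p c k = g := pl_eq h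

theorem act_add (p : Ultrafilter ℕ) (c d : ℤ → G) : act p (c + d) = act p c + act p d := by
  funext k
  apply act_eq
  filter_upwards [act_spec p c k, act_spec p d k] with n h1 h2
  rw [tw_add, h1, h2]; rfl

theorem act_map {H : Type*} [AddCommGroup H] [Finite H] (φ : G →+ H) (p : Ultrafilter ℕ)
    (c : ℤ → G) : act p (fun i => φ (c i)) = fun i => φ (act p c i) := by
  funext k
  apply act_eq
  filter_upwards [act_spec p c k] with n h1
  rw [tw_map, h1]

theorem act_neg (p : Ultrafilter ℕ) (c : ℤ → G) : act p (-c) = - act p c := by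
  exact act_map (-(AddMonoidHom.id G)) p c

theorem act_sub (p : Ultrafilter ℕ) (c d : ℤ → G) : act p (c - d) = act p c - act p d := by
  rw [sub_eq_add_neg, act_add, act_neg, ← sub_eq_add_neg]

theorem act_zero (p : Ultrafilter ℕ) : act p (0 : ℤ → G) = 0 := by
  have := act_sub p (0 : ℤ → G) 0
  simpa using this

theorem act_congr (p : Ultrafilter ℕ) {c d : ℤ → G} {k : ℤ} (h : ∀ i ≤ k, c i = d i) :
    act p c k = act p d k := by
  apply act_eq
  filter_upwards [act_spec p d k] with n h1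
  rw [tw_congr c d _ k h, h1]

theorem act_lead (p : Ultrafilter ℕ) {c : ℤ → G} {k : ℤ} (h : ∀ i < k, c i = 0) :
    act p c k = c k := by
  apply act_eq
  exact Eventually.of_forall fun n => tw_lead c k h _

theorem act_below (p : Ultrafilter ℕ) {c : ℤ → G} {k : ℤ} (h : ∀ i ≤ k, c i = 0) :
    act p c k = 0 := by
  apply act_eq
  exact Eventually.of_forall fun n => tw_below c k h _

/-- the composition law -/
theorem act_comp {p q : Ultrafilter ℕ} (hq : q ∈ E) (c : ℤ → G) :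
    act (p + q) c = act p (act q c) := by
  funext k
  apply act_eq
  rw [Ultrafilter.eventually_add]
  filter_upwards [act_spec p (act q c) k] with n hn
  set K : ℕ := (-k).toNat + pos k n + 1 with hK
  have hfin : ∀ᶠ m in (q : Filter ℕ), ∀ i ∈ Finset.Icc (k - (pos k n : ℤ)) k,
      tw c i (pos i m) = act q c i := by
    rw [Filter.eventually_all_finset]
    intro i _
    exact act_spec q c i
  filter_upwards [hfin, hq K] with m hm hmK
  rw [add_comm n m, pos_add (K := K) (by omega) hmK.2 n, ← hn]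
  refine restart c (act q c) (fun i => pos i m) (pos k n) k (pos k n) ?_ ?_ ?_
  · intro i hi hi'
    exact pos_double (K := K) (by omega) hmK.2
  · intro i hi hi'
    exact hm i (Finset.mem_Icc.2 ⟨hi, hi'⟩)
  · exact Nat.lt_two_pow_self

end Act

/-! ### the semigroup `E` -/

theorem E_closed : IsClosed E := by
  have : E = ⋂ K : ℕ, {p : Ultrafilter ℕ | {n : ℕ | 0 < n ∧ 2 ^ K ∣ n} ∈ p} := by
    ext p
    simp only [E, Set.mem_ofPred_eq, Set.mem_iInter]
    rfl
  rw [this]
  exact isClosed_iInter fun K => ultrafilter_isClosed_basic _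

theorem E_add {p q : Ultrafilter ℕ} (hp : p ∈ E) (hq : q ∈ E) : p + q ∈ E := by
  intro K
  rw [Ultrafilter.eventually_add]
  filter_upwards [hp K] with n hn
  filter_upwards [hq K] with m hm
  exact ⟨by omega, dvd_add hn.2 hm.2⟩

/-- limit of a sequence of points -/
noncomputable def lseq (n : ℕ → ℕ) : Ultrafilter ℕ := (hyperfilter ℕ).map n

theorem eventually_ge_hyper (K : ℕ) : ∀ᶠ N in (hyperfilter ℕ : Filter ℕ), K ≤ N := by
  have : ∀ᶠ N in atTop, K ≤ N := eventually_ge_atTop K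
  exact (Nat.hyperfilter_le_atTop) this

theorem lseq_mem {n : ℕ → ℕ} (hn : ∀ M, 0 < n M ∧ 2 ^ M ∣ n M) : lseq n ∈ E := by
  intro K
  show ∀ᶠ M in (hyperfilter ℕ : Filter ℕ), _
  filter_upwards [eventually_ge_hyper K] with M hM
  exact ⟨(hn M).1, (pow_dvd_pow 2 hM).trans (hn M).2⟩

theorem E_nonempty : E.Nonempty :=
  ⟨lseq (fun M => 2 ^ M), lseq_mem fun M => ⟨by positivity, dvd_rfl⟩⟩

section

variable {G : Type*} [AddCommGroup G] [Finite G]

theorem lseq_spec (n : ℕ → ℕ) (c : ℤ → G) (k : ℤ) :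
    ∀ᶠ M in (hyperfilter ℕ : Filter ℕ), tw c k (pos k (n M)) = act (lseq n) c k :=
  act_spec (lseq n) c k

theorem lseq_eq {n : ℕ → ℕ} {c : ℤ → G} {k : ℤ} {g : G}
    (h : ∀ᶠ M in (hyperfilter ℕ : Filter ℕ), tw c k (pos k (n M)) = g) :
    act (lseq n) c k = g := act_eq (p := lseq n) h

/-- realization -/
theorem realize {p : Ultrafilter ℕ} (hp : p ∈ E) (c : ℤ → G) (N : ℕ) :
    ∃ n, 0 < n ∧ 2 ^ N ∣ n ∧ ∀ i : ℤ, |i| ≤ N → tw c i (pos i n) = act p c i := by
  have hfin : ∀ᶠ m in (p : Filter ℕ), ∀ i ∈ Finset.Icc (-(N : ℤ)) N,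
      tw c i (pos i m) = act p c i := by
    rw [Filter.eventually_all_finset]
    intro i _
    exact act_spec p c i
  obtain ⟨n, h1, h2⟩ := (hfin.and (hp N)).exists
  exact ⟨n, h2.1, h2.2, fun i hi => h1 i (Finset.mem_Icc.2 (abs_le.1 hi))⟩

theorem exists_of_real (c w : ℤ → G)
    (h : ∀ N : ℕ, ∃ n, 0 < n ∧ 2 ^ N ∣ n ∧ ∀ i : ℤ, |i| ≤ N → tw c i (pos i n) = w i) :
    ∃ p ∈ E, act p c = w := by
  choose n h1 h2 h3 using h
  refine ⟨lseq n, lseq_mem fun M => ⟨h1 M, h2 M⟩, ?_⟩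
  funext k
  apply lseq_eq
  filter_upwards [eventually_ge_hyper k.natAbs] with M hM
  exact h3 M k (by rw [abs_le]; omega)

/-- closedness of orbits -/
theorem orbit_closed (c w : ℤ → G)
    (h : ∀ N : ℕ, ∃ p ∈ E, ∀ i : ℤ, |i| ≤ N → act p c i = w i) :
    ∃ p ∈ E, act p c = w := by
  apply exists_of_real
  intro N
  obtain ⟨p, hp, h1⟩ := h N
  obtain ⟨n, hn, hn2, h2⟩ := realize hp c N
  exact ⟨n, hn, hn2, fun i hi => (h2 i hi).trans (h1 i hi)⟩

end

/-! ### shift -/

theorem exists_shift_up {p : Ultrafilter ℕ} (hp : p ∈ E) : ∃ q ∈ E, ∀ (G : Type)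
    [AddCommGroup G] [Finite G] (g : G) (k : ℤ),
    act q (fun _ => g) k = act p (fun _ => g) (k + 1) := by
  refine ⟨p.map (fun n => 2 * n), ?_, ?_⟩
  · intro K
    show ∀ᶠ n in (p : Filter ℕ), _
    filter_upwards [hp K] with n hn
    exact ⟨by omega, Dvd.dvd.mul_left hn.2 2⟩
  · intro G _ _ g k
    apply act_eq
    show ∀ᶠ n in (p : Filter ℕ), _
    filter_upwards [act_spec p (fun _ => g) (k + 1)] with n hn
    rw [← hn, pos_two_mul, tw_const, tw_const]

theorem exists_shift_down {p : Ultrafilter ℕ} (hp : p ∈ E) : ∃ q ∈ E, ∀ (G : Type)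
    [AddCommGroup G] [Finite G] (g : G) (k : ℤ),
    act q (fun _ => g) k = act p (fun _ => g) (k - 1) := by
  refine ⟨p.map (fun n => n / 2), ?_, ?_⟩
  · intro K
    show ∀ᶠ n in (p : Filter ℕ), _
    filter_upwards [hp (K + 1)] with n hn
    obtain ⟨h0, m, rfl⟩ := hn
    rw [pow_succ', mul_assoc, Nat.mul_div_cancel_left _ (by norm_num)]
    refine ⟨?_, dvd_mul_right _ _⟩
    rcases Nat.eq_zero_or_pos m with rfl | hm
    · simp at h0
    · positivity
  · intro G _ _ g k
    apply act_eq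
    show ∀ᶠ n in (p : Filter ℕ), _
    filter_upwards [act_spec p (fun _ => g) (k - 1), hp 1] with n hn h1
    obtain ⟨h0, m, rfl⟩ := h1
    rw [← hn, pow_one, Nat.mul_div_cancel_left _ (by norm_num), pos_two_mul, tw_const, tw_const,
      sub_add_cancel]

theorem exists_shift (t : ℤ) : ∀ {p : Ultrafilter ℕ} (_ : p ∈ E), ∃ q ∈ E, ∀ (G : Type)
    [AddCommGroup G] [Finite G] (g : G) (k : ℤ),
    act q (fun _ => g) k = act p (fun _ => g) (k + t) := by
  induction t using Int.induction_on with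
  | zero =>
    intro p hp
    exact ⟨p, hp, fun G _ _ g k => by rw [add_zero]⟩
  | succ t ih =>
    intro p hp
    obtain ⟨q, hq, h1⟩ := ih hp
    obtain ⟨r, hr, h2⟩ := exists_shift_up hq
    refine ⟨r, hr, fun G _ _ g k => ?_⟩
    rw [h2, h1]; congr 1; ring
  | pred t ih =>
    intro p hp
    obtain ⟨q, hq, h1⟩ := ih hp
    obtain ⟨r, hr, h2⟩ := exists_shift_down hq
    refine ⟨r, hr, fun G _ _ g k => ?_⟩
    rw [h2, h1]; congr 1; ring

/-! ### minimal left ideals -/

/-- closed left ideals of `E` -/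
def IsLI (I : Set (Ultrafilter ℕ)) : Prop :=
  IsClosed I ∧ I.Nonempty ∧ I ⊆ E ∧ ∀ p ∈ E, ∀ q ∈ I, p + q ∈ I

theorem E_isLI : IsLI E := ⟨E_closed, E_nonempty, subset_rfl, fun _ hp _ hq => E_add hp hq⟩

theorem exists_minimal_LI : ∃ I, Minimal IsLI I := by
  have : ∃ I, Minimal (· ∈ {I | IsLI I}) I := by
    obtain ⟨I, -, hI⟩ := zorn_superset_nonempty {I | IsLI I} (fun c hcs hc hcn => by
      refine ⟨⋂₀ c, ⟨isClosed_sInter fun t ht => (hcs ht).1, ?_, ?_, ?_⟩,
        fun s hs => Set.sInter_subset_of_mem hs⟩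
      · convert!
          @IsCompact.nonempty_iInter_of_directed_nonempty_isCompact_isClosed _ _ _ hcn.coe_sort
            ((↑) : c → Set (Ultrafilter ℕ)) ?_ ?_ ?_ ?_
        · exact Set.sInter_eq_iInter
        · refine DirectedOn.directed_val (IsChain.directedOn hc.symm)
        exacts [fun i => (hcs i.prop).2.1, fun i => (hcs i.prop).1.isCompact,
          fun i => (hcs i.prop).1]
      · obtain ⟨s, hs⟩ := hcn
        exact (Set.sInter_subset_of_mem hs).trans (hcs hs).2.2.1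
      · intro p hp q hq
        rw [Set.mem_sInter] at hq ⊢
        exact fun t ht => (hcs ht).2.2.2 p hp q (hq t ht)) E E_isLI
    exact ⟨I, hI⟩
  exact this

/-- a fixed minimal left ideal -/
noncomputable def I0 : Set (Ultrafilter ℕ) := exists_minimal_LI.choose

theorem I0_min : Minimal IsLI I0 := exists_minimal_LI.choose_spec

theorem I0_sub {p : Ultrafilter ℕ} (hp : p ∈ I0) : p ∈ E := I0_min.prop.2.2.1 hp

theorem I0_add {p q : Ultrafilter ℕ} (hp : p ∈ E) (hq : q ∈ I0) : p + q ∈ I0 :=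
  I0_min.prop.2.2.2 p hp q hq

theorem I0_image {p : Ultrafilter ℕ} (hp : p ∈ I0) : (· + p) '' I0 = I0 := by
  have hsub : (· + p) '' I0 ⊆ I0 := by
    rintro _ ⟨q, hq, rfl⟩
    exact I0_add (I0_sub hq) hp
  refine I0_min.eq_of_subset ⟨?_, ?_, ?_, ?_⟩ hsub
  · exact (Ultrafilter.continuous_add_left p).isClosedMap _ I0_min.prop.1
  · exact ⟨_, ⟨p, hp, rfl⟩⟩
  · exact hsub.trans I0_min.prop.2.2.1
  · rintro q hq _ ⟨r, hr, rfl⟩
    exact ⟨q + r, I0_add hq hr, (add_assoc _ _ _)⟩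

/-- transitivity -/
theorem I0_trans {p q : Ultrafilter ℕ} (hp : p ∈ I0) (hq : q ∈ I0) : ∃ r ∈ I0, r + p = q := by
  have : q ∈ (· + p) '' I0 := by rw [I0_image hp]; exact hq
  exact this

theorem I0_idem {p : Ultrafilter ℕ} (hp : p ∈ I0) : ∃ v ∈ I0, v + p = p ∧ v + v = v := by
  obtain ⟨v, hv, hvv⟩ := exists_idempotent_in_compact_add_subsemigroup
    (M := Ultrafilter ℕ) Ultrafilter.continuous_add_left (I0 ∩ {r | r + p = p})
    (by
      obtain ⟨r, hr, h⟩ := I0_trans hp hp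
      exact ⟨r, hr, h⟩)
    (by
      apply IsClosed.isCompact
      exact I0_min.prop.1.inter
        ((T1Space.t1 p).preimage (Ultrafilter.continuous_add_left p)))
    (by
      rintro x ⟨hx1, hx2⟩ y ⟨hy1, hy2⟩
      refine ⟨I0_add (I0_sub hx1) hy1, ?_⟩
      show x + y + p = p
      have hx2' : x + p = p := hx2
      have hy2' : y + p = p := hy2
      rw [add_assoc, hy2', hx2'])
  exact ⟨v, hv.1, hv.2, hvv⟩

end Pool.Agent.helper10.BPC
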