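import Mathlib
import Pool.Agent.helper10.BPC.Act

set_option autoImplicit false

/-!
# Freeness: the forward germs of distinct points are distinct
-/

namespace Pool.Agent.helper10.BPC

open Filter

/-- iterated sums of `a` -/
def s : ℕ → ℕ → ℕ
  | 0, n => a n
  | _ + 1, 0 => 0
  | i + 1, n + 1 => s (i + 1) n + s i n

theorem s_zero (n : ℕ) : s 0 n = a n := by rw [s]

theorem s_succ_zero (i : ℕ) : s (i + 1) 0 = 0 := by rw [s]

theorem s_succ_succ (i n : ℕ) : s (i + 1) (n + 1) = s (i + 1) n + s i n := by rw [s]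

theorem s_of_lt (n : ℕ) : ∀ i, n < i → s i n = 0 := by
  induction n with
  | zero =>
    intro i hi
    obtain ⟨i, rfl⟩ : ∃ j, i = j + 1 := ⟨i - 1, by omega⟩
    exact s_succ_zero i
  | succ n ih =>
    intro i hi
    obtain ⟨i, rfl⟩ : ∃ j, i = j + 1 := ⟨i - 1, by omega⟩
    rw [s_succ_succ, ih _ (by omega), ih _ (by omega)]

theorem s_self (n : ℕ) : s n n = 1 := by
  induction n with
  | zero => rw [s_zero, a_zero]
  | succ n ih => rw [s_succ_succ, s_of_lt n _ (by omega), ih]

theorem a_two_mul_succ (m : ℕ) : a (2 * m + 1) = a (2 * m) + a m := by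
  rw [a_succ]; congr 2; omega

theorem s_zero_two_mul (m : ℕ) : s 0 (2 * m) = 2 * s 1 m + s 0 m := by
  induction m with
  | zero => simp [s_zero, s_succ_zero]
  | succ m ih =>
    have e : 2 * (m + 1) = (2 * m + 1) + 1 := by ring
    rw [s_zero, e, a_succ, a_two_mul_succ, s_succ_succ, s_zero (m + 1)]
    have e2 : (2 * m + 1 + 1) / 2 = m + 1 := by omega
    rw [e2]
    rw [s_zero] at ih
    rw [ih]
    simp only [s_zero]
    ring

theorem s_one_two_mul (m : ℕ) : s 1 (2 * m) = 4 * s 2 m + 3 * s 1 m := by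
  induction m with
  | zero => simp [s_succ_zero]
  | succ m ih =>
    have e : 2 * (m + 1) = (2 * m + 1) + 1 := by ring
    have h0 := s_zero_two_mul m
    rw [e, s_succ_succ, s_succ_succ, s_succ_succ 1 m, s_succ_succ 0 m, s_zero (2 * m + 1),
      a_two_mul_succ, ih]
    simp only [s_zero, zero_add, Nat.reduceAdd] at *
    omega

theorem s_two_mul (i : ℕ) : ∃ μ : ℕ → ℕ, ∀ m,
    s i (2 * m) = 2 ^ (i + 1) * s (i + 1) m + ∑ l ∈ Finset.range (i + 1), μ l * s l m := by
  induction i using Nat.strong_induction_on with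
  | _ i ih =>
    match i, ih with
    | 0, _ =>
      refine ⟨fun _ => 1, fun m => ?_⟩
      rw [s_zero_two_mul]; simp
    | 1, _ =>
      refine ⟨fun l => if l = 1 then 3 else 0, fun m => ?_⟩
      rw [s_one_two_mul]; simp
    | i + 2, ih =>
      obtain ⟨μ, hμ⟩ := ih i (by omega)
      obtain ⟨ν, hν⟩ := ih (i + 1) (by omega)
      let lam : ℕ → ℕ := fun l => match l with
        | 0 => 0
        | l + 1 => 2 * ν l + (if l < i + 1 then μ l else 2 ^ (i + 1))
      refine ⟨lam, fun m => ?_⟩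
      induction m with
      | zero =>
        simp only [mul_zero, s_succ_zero, zero_add]
        symm
        apply Finset.sum_eq_zero
        intro l _
        rcases l with _ | l
        · simp [lam]
        · rw [s_succ_zero, mul_zero]
      | succ m ihm =>
        have e : 2 * (m + 1) = (2 * m + 1) + 1 := by ring
        have h1 : ∑ l ∈ Finset.range (i + 2 + 1), lam l * s l (m + 1) =
            ∑ l ∈ Finset.range (i + 2 + 1), lam l * s l m +
              ∑ l ∈ Finset.range (i + 2), lam (l + 1) * s l m := by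
          rw [Finset.sum_range_succ' (fun l => lam l * s l (m + 1)),
            Finset.sum_range_succ' (fun l => lam l * s l m)]
          simp only [s_succ_succ, mul_add, Finset.sum_add_distrib]
          simp only [lam, zero_mul, add_zero]
        have h2 : ∑ l ∈ Finset.range (i + 2), lam (l + 1) * s l m =
            2 * (∑ l ∈ Finset.range (i + 2), ν l * s l m) +
              (∑ l ∈ Finset.range (i + 1), μ l * s l m + 2 ^ (i + 1) * s (i + 1) m) := by
          have h3 : ∀ l ∈ Finset.range (i + 2), lam (l + 1) * s l m =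
              2 * (ν l * s l m) + (if l < i + 1 then μ l else 2 ^ (i + 1)) * s l m := by
            intro l _
            show (2 * ν l + (if l < i + 1 then μ l else 2 ^ (i + 1))) * s l m = _
            ring
          rw [Finset.sum_congr rfl h3, Finset.sum_add_distrib, ← Finset.mul_sum]
          congr 1
          rw [Finset.sum_range_succ]
          congr 1
          · apply Finset.sum_congr rfl
            intro l hl
            rw [if_pos (Finset.mem_range.1 hl)]
          · rw [if_neg (lt_irrefl _)]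
        rw [h1, h2, e, s_succ_succ (i + 1) (2 * m + 1), s_succ_succ (i + 1) (2 * m),
          s_succ_succ i (2 * m), s_succ_succ (i + 2) m, ihm, hν m, hμ m]
        ring

variable {ℓ : ℕ} [Fact ℓ.Prime]

theorem free (h2 : ℓ ≠ 2) {n n' : ℕ}
    (h : ∀ j : ℕ, (a (2 ^ j * n) : ZMod ℓ) = a (2 ^ j * n')) : n = n' := by
  have h2' : (2 : ZMod ℓ) ≠ 0 := by
    intro h0
    have h3 : ((2 : ℕ) : ZMod ℓ) = 0 := by exact_mod_cast h0
    rw [ZMod.natCast_eq_zero_iff] at h3
    exact h2 ((Nat.prime_dvd_prime_iff_eq Fact.out Nat.prime_two).1 h3)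
  have key : ∀ i j : ℕ, (s i (2 ^ j * n) : ZMod ℓ) = s i (2 ^ j * n') := by
    intro i
    induction i using Nat.strong_induction_on with
    | _ i ih =>
      rcases i with _ | i
      · intro j; rw [s_zero, s_zero]; exact h j
      · intro j
        obtain ⟨μ, hμ⟩ := s_two_mul i
        have e1 := hμ (2 ^ j * n)
        have e2 := hμ (2 ^ j * n')
        rw [← mul_assoc, ← pow_succ'] at e1 e2
        have e3 := ih i (by omega) (j + 1)
        rw [e1, e2] at e3
        push_cast at e3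
        have e4 : ∑ l ∈ Finset.range (i + 1), (μ l : ZMod ℓ) * (s l (2 ^ j * n) : ZMod ℓ) =
            ∑ l ∈ Finset.range (i + 1), (μ l : ZMod ℓ) * (s l (2 ^ j * n') : ZMod ℓ) := by
          apply Finset.sum_congr rfl
          intro l hl
          rw [ih l (by rw [Finset.mem_range] at hl; omega) j]
        rw [e4] at e3
        exact mul_left_cancel₀ (pow_ne_zero _ h2') (add_right_cancel e3)
  rcases lt_trichotomy n n' with hlt | heq | hlt
  · exfalso
    have := key n' 0
    rw [pow_zero, one_mul, one_mul, s_self, s_of_lt n n' hlt] at this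
    simp at this
  · exact heq
  · exfalso
    have := key n 0
    rw [pow_zero, one_mul, one_mul, s_self, s_of_lt n' n hlt] at this
    simp at this

theorem pos_two_pow_mul (k : ℤ) (j n : ℕ) : pos k (2 ^ j * n) = pos (k + j) n := by
  induction j generalizing k with
  | zero => simp
  | succ j ih =>
    rw [pow_succ', mul_assoc, pos_two_mul, ih]; congr 1; push_cast; ring

theorem pos_nat (j n : ℕ) : pos (j : ℤ) n = 2 ^ j * n := by
  have := pos_two_pow_mul 0 j n
  rw [pos_zero, zero_add] at this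
  exact this.symm

theorem separate (h2 : ℓ ≠ 2) {n n' : ℕ} (hne : n ≠ n') (M : ℕ)
    (hw : ∀ i : ℤ, -(M : ℤ) ≤ i → i ≤ 0 → (a (pos i n) : ZMod ℓ) = a (pos i n')) :
    ∃ j : ℕ, (∀ i : ℤ, -(M : ℤ) ≤ i → i ≤ 0 →
      (a (pos i (2 ^ j * n)) : ZMod ℓ) = a (pos i (2 ^ j * n'))) ∧
      (a (pos 1 (2 ^ j * n)) : ZMod ℓ) ≠ a (pos 1 (2 ^ j * n')) := by
  classical
  have hex : ∃ j : ℕ, (a (2 ^ j * n) : ZMod ℓ) ≠ a (2 ^ j * n') := by
    by_contra hcon
    push Not at hcon
    exact hne (free h2 hcon)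
  have hspec := Nat.find_spec hex
  have hmin : ∀ m < Nat.find hex, (a (2 ^ m * n) : ZMod ℓ) = a (2 ^ m * n') := fun m hm => by
    have := Nat.find_min hex hm
    push Not at this
    exact this
  have h0 : Nat.find hex ≠ 0 := by
    intro h0
    rw [h0] at hspec
    apply hspec
    have := hw 0 (by omega) le_rfl
    rw [pos_zero, pos_zero] at this
    simpa using this
  obtain ⟨j, hj⟩ : ∃ j, Nat.find hex = j + 1 := ⟨Nat.find hex - 1, by omega⟩
  rw [hj] at hspec hmin
  refine ⟨j, ?_, ?_⟩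
  · intro i hi hi'
    rw [pos_two_pow_mul, pos_two_pow_mul]
    rcases le_total (i + j) 0 with h | h
    · exact hw _ (by omega) h
    · obtain ⟨t, ht⟩ := Int.eq_ofNat_of_zero_le h
      rw [ht, pos_nat, pos_nat]
      exact hmin t (by omega)
  · rw [pos_one, pos_one, ← mul_assoc, ← mul_assoc, ← pow_succ']
    exact hspec

theorem tw_one_germ (k : ℤ) (j : ℕ) : tw (fun _ => (1 : ZMod ℓ)) k j = (a j : ZMod ℓ) := by
  rw [tw_const, nsmul_eq_mul, mul_one]

/-- limits of separating pairs -/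
theorem separate_lim (h2 : ℓ ≠ 2) (n n' : ℕ → ℕ) (hne : ∀ M, n M ≠ n' M)
    (hn : ∀ M, 0 < n M ∧ 2 ^ M ∣ n M)
    (hw : ∀ M : ℕ, ∀ i : ℤ, -(M : ℤ) ≤ i → i ≤ 0 →
      (a (pos i (n M)) : ZMod ℓ) = a (pos i (n' M))) :
    ∃ j : ℕ → ℕ, lseq (fun M => 2 ^ (j M) * n M) ∈ E ∧
      (∀ k ≤ 0, act (lseq (fun M => 2 ^ (j M) * n M)) (fun _ => (1 : ZMod ℓ)) k =
        act (lseq (fun M => 2 ^ (j M) * n' M)) (fun _ => (1 : ZMod ℓ)) k) ∧
      act (lseq (fun M => 2 ^ (j M) * n M)) (fun _ => (1 : ZMod ℓ)) 1 ≠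
        act (lseq (fun M => 2 ^ (j M) * n' M)) (fun _ => (1 : ZMod ℓ)) 1 := by
  choose j hj1 hj2 using fun M => separate h2 (hne M) M (hw M)
  refine ⟨j, lseq_mem fun M => ⟨Nat.mul_pos (by positivity) (hn M).1,
    (hn M).2.trans (dvd_mul_left _ _)⟩, ?_, ?_⟩
  · intro k hk
    apply lseq_eq
    filter_upwards [lseq_spec (fun M => 2 ^ (j M) * n' M) (fun _ => (1 : ZMod ℓ)) k,
      eventually_ge_hyper k.natAbs] with M h1 hM
    rw [← h1, tw_one_germ, tw_one_germ]
    exact hj1 M k (by omega) hk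
  · intro h
    obtain ⟨M, h1, h3⟩ := ((lseq_spec (fun M => 2 ^ (j M) * n' M)
      (fun _ => (1 : ZMod ℓ)) 1).and (lseq_spec (fun M => 2 ^ (j M) * n M)
      (fun _ => (1 : ZMod ℓ)) 1)).exists
    rw [tw_one_germ] at h1 h3
    exact hj2 M (h3.trans (h.trans h1.symm))

theorem nondeterminism (h2 : ℓ ≠ 2) (k : ℤ) : ∃ q ∈ E, ∃ q' ∈ E,
    (∀ i < k, act q (fun _ => (1 : ZMod ℓ)) i = act q' (fun _ => (1 : ZMod ℓ)) i) ∧
      act q (fun _ => (1 : ZMod ℓ)) k ≠ act q' (fun _ => (1 : ZMod ℓ)) k := by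
  have hpig : ∀ M : ℕ, ∃ n n' : ℕ, n ≠ n' ∧ (0 < n ∧ 2 ^ M ∣ n) ∧ (0 < n' ∧ 2 ^ M ∣ n') ∧
      ∀ i : ℤ, -(M : ℤ) ≤ i → i ≤ 0 → (a (pos i n) : ZMod ℓ) = a (pos i n') := by
    intro M
    obtain ⟨x, y, hxy, hf⟩ := Finite.exists_ne_map_eq_of_infinite
      (fun t : ℕ => fun i : Fin (M + 1) => (a (pos (-(i : ℕ) : ℤ) (2 ^ M * (t + 1))) : ZMod ℓ))
    refine ⟨2 ^ M * (x + 1), 2 ^ M * (y + 1), ?_, ⟨by positivity, dvd_mul_right _ _⟩,
      ⟨by positivity, dvd_mul_right _ _⟩, ?_⟩
    · intro h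
      apply hxy
      have := Nat.eq_of_mul_eq_mul_left (by positivity) h
      omega
    · intro i hi hi'
      have := congrFun hf ⟨(-i).toNat, by omega⟩
      simp only at this
      have e : (-(((-i).toNat : ℕ) : ℤ)) = i := by omega
      rw [e] at this
      exact this
  choose n n' hne hn hn' hw using hpig
  obtain ⟨j, hE, h1, h3⟩ := separate_lim h2 n n' hne hn hw
  have hE' : lseq (fun M => 2 ^ (j M) * n' M) ∈ E :=
    lseq_mem fun M => ⟨Nat.mul_pos (by positivity) (hn' M).1,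
      (hn' M).2.trans (dvd_mul_left _ _)⟩
  obtain ⟨q, hq, hq1⟩ := exists_shift (1 - k) hE
  obtain ⟨q', hq', hq1'⟩ := exists_shift (1 - k) hE'
  refine ⟨q, hq, q', hq', ?_, ?_⟩
  · intro i hi
    rw [hq1, hq1']
    exact h1 _ (by omega)
  · rw [hq1, hq1']
    have e : k + (1 - k) = 1 := by ring
    rw [e]
    exact h3

end Pool.Agent.helper10.BPC
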