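import Mathlib
import Pool.Agent.helper10.BPC.Free

set_option autoImplicit false

/-!
# The action modulo an odd prime
-/

namespace Pool.Agent.helper10.BPC

open Filter

attribute [local instance] Ultrafilter.add Ultrafilter.addSemigroup

/-! ### two general lemmas -/

section General

variable {G : Type*} [AddCommGroup G]

theorem tw_diff_even (c : ℤ → G) (k : ℤ) (i : ℕ) :
    tw c (k - 1) i = tw c k (2 * i + 1) - tw c k (2 * i) := by
  have h := tw_succ c k (2 * i)
  have e : (2 * i + 1) / 2 = i := by omega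
  rw [e] at h
  rw [h]; abel

theorem tw_diff_odd (c : ℤ → G) (k : ℤ) (i : ℕ) :
    tw c (k - 1) (i + 1) = tw c k (2 * i + 2) - tw c k (2 * i + 1) := by
  have h := tw_succ c k (2 * i + 1)
  have e : (2 * i + 1 + 1) / 2 = i + 1 := by omega
  rw [e] at h
  rw [h]; abel

theorem pos_pos {K : ℕ} {k : ℤ} (hk : -(K : ℤ) ≤ k) {n : ℕ} (hn : 0 < n ∧ 2 ^ K ∣ n) :
    0 < pos k n := by
  obtain ⟨h0, m, rfl⟩ := hn
  rw [pos_mul K k hk]
  have hm : 0 < m := by
    rcases Nat.eq_zero_or_pos m with rfl | hm
    · simp at h0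
    · exact hm
  positivity

variable [Finite G]

/-- alternating germs are killed by all of `E` -/
theorem act_alt (D : ℤ → G) (h : ∀ k, D k + D (k - 1) = 0) {p : Ultrafilter ℕ} (hp : p ∈ E) :
    act p D = 0 := by
  have key : ∀ j : ℕ, ∀ k : ℤ, tw D k (j + 1) = 0 := by
    intro j
    induction j using Nat.strong_induction_on with
    | _ j ih =>
      intro k
      rcases j with _ | j
      · rw [zero_add, tw_one]; exact h k
      · have e : (j + 1 + 1) / 2 = j / 2 + 1 := by omega
        rw [tw_succ, ih j (by omega), e, ih (j / 2) (by omega), add_zero]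
  funext k
  apply act_eq
  filter_upwards [hp (-k).toNat] with n hn
  have := pos_pos (K := (-k).toNat) (k := k) (by omega) hn
  obtain ⟨j, hj⟩ : ∃ j, pos k n = j + 1 := ⟨pos k n - 1, by omega⟩
  rw [hj, key]; rfl

theorem ends_aux (D : ℤ → G) {v : Ultrafilter ℕ} (hv : v ∈ E) (hD : act v D = 0)
    (k' : ℤ) (hk' : ∀ j, tw D k' (j + 1) = 0) : ∀ k, ∀ j, tw D k (j + 1) = 0 := by
  have up : ∀ k, (∀ j, tw D k (j + 1) = 0) → ∀ j, tw D (k + 1) (j + 1) = 0 := by
    intro k hk
    have hconst : ∀ j, tw D (k + 1) (j + 1) = tw D (k + 1) 1 := by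
      intro j
      induction j with
      | zero => rfl
      | succ j ih =>
        have e : (j + 1 + 1) / 2 = j / 2 + 1 := by omega
        rw [tw_succ, ih, e, add_sub_cancel_right, hk, add_zero]
    obtain ⟨n, h1, h2⟩ := ((act_spec v D (k + 1)).and (hv (-(k + 1)).toNat)).exists
    have := pos_pos (K := (-(k + 1)).toNat) (k := k + 1) (by omega) h2
    obtain ⟨j, hj⟩ : ∃ j, pos (k + 1) n = j + 1 := ⟨pos (k + 1) n - 1, by omega⟩
    rw [hj, hconst, hD] at h1
    intro j
    rw [hconst, h1]; rfl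
  have down : ∀ k, (∀ j, tw D k (j + 1) = 0) → ∀ j, tw D (k - 1) (j + 1) = 0 := by
    intro k hk j
    have e : 2 * (j + 1) = (2 * j + 1) + 1 := by ring
    rw [tw_diff_even, hk, e, hk, sub_zero]
  have key : ∀ t : ℤ, ∀ j, tw D (k' + t) (j + 1) = 0 := by
    intro t
    induction t using Int.induction_on with
    | zero => simpa using hk'
    | succ t ih =>
      have := up _ ih
      rw [add_assoc] at this; exact this
    | pred t ih =>
      have := down _ ih
      rw [add_sub_assoc] at this; exact this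
  intro k
  have := key (k - k')
  rwa [add_sub_cancel] at this

theorem ends (D : ℤ → G) {v : Ultrafilter ℕ} (hv : v ∈ E) (hD : act v D = 0) :
    (∃ q ∈ E, ∃ d : G, d ≠ 0 ∧ act q D = fun _ => d) ∨ ∀ k, D k + D (k - 1) = 0 := by
  classical
  by_cases h : ∃ J : ℕ, ∃ k : ℤ, ∀ j, J ≤ j → tw D k j = 0
  · right
    obtain ⟨J, hJ⟩ := h
    have h1 : ∃ k : ℤ, ∀ j, tw D k (j + 1) = 0 := by
      induction J using Nat.strong_induction_on with
      | _ J ih =>
        obtain ⟨k, hk⟩ := hJ
        rcases Nat.lt_or_ge J 2 with hJ2 | hJ2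
        · exact ⟨k, fun j => hk _ (by omega)⟩
        · apply ih ((J + 1) / 2) (by omega)
          refine ⟨k - 1, fun j hj => ?_⟩
          rw [tw_diff_even, hk _ (by omega), hk _ (by omega), sub_zero]
    obtain ⟨k', hk'⟩ := h1
    intro k
    have := ends_aux D hv hD k' hk' k 0
    rwa [zero_add, tw_one] at this
  · left
    push Not at h
    have key : ∀ N : ℕ, ∃ n, (0 < n ∧ 2 ^ N ∣ n) ∧ ∃ d : G, d ≠ 0 ∧
        ∀ i : ℤ, |i| ≤ N → tw D i (pos i n) = d := by
      intro N
      obtain ⟨n, hn0, ⟨m, rfl⟩, hn⟩ := realize hv D N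
      have hm : 0 < m := by
        rcases Nat.eq_zero_or_pos m with rfl | hm
        · simp at hn0
        · exact hm
      set B : ℕ → ℕ → G := fun r j => tw D (-(N : ℤ) + r) (2 ^ r * m + j) with hBdef
      have hpos : ∀ r : ℕ, ∀ y : ℕ, pos (-(N : ℤ) + r) (2 ^ N * y) = 2 ^ r * y := by
        intro r y
        rw [pos_mul N _ (by omega)]
        congr 2; omega
      have hB : ∀ r j, B (r + 1) (j + 1) = B (r + 1) j + B r ((j + 1) / 2) := by
        intro r j
        simp only [hBdef]
        rw [← add_assoc, tw_succ]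
        have e : (2 ^ (r + 1) * m + j + 1) / 2 = 2 ^ r * m + (j + 1) / 2 := by
          have : 2 ^ (r + 1) * m = 2 * (2 ^ r * m) := by ring
          omega
        rw [e]
        congr 2
        push_cast; ring
      have h0 : ∀ r ≤ 2 * N, B r 0 = 0 := by
        intro r hr
        simp only [hBdef, add_zero]
        rw [← hpos, hn _ (by rw [abs_le]; omega), hD]; rfl
      have hex : ∃ i, B 0 i ≠ 0 := by
        obtain ⟨j, hj, hj'⟩ := h m (-(N : ℤ))
        refine ⟨j - m, ?_⟩
        simp only [hBdef, pow_zero, one_mul, Nat.cast_zero, add_zero]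
        rwa [Nat.add_sub_cancel' hj]
      have hi0 : 0 < Nat.find hex := by
        rw [Nat.find_pos]
        intro hc
        exact hc (h0 0 (by omega))
      have hprop := propagate B (2 * N) hB h0 (Nat.find hex)
        (fun j hj => by simpa using Nat.find_min hex hj) hi0
      refine ⟨2 ^ N * (m + Nat.find hex), ⟨by positivity, dvd_mul_right _ _⟩,
        B 0 (Nat.find hex), Nat.find_spec hex, ?_⟩
      intro i hi
      rw [abs_le] at hi
      obtain ⟨r, hr⟩ : ∃ r : ℕ, i = -(N : ℤ) + r := ⟨(i + N).toNat, by omega⟩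
      rw [hr, hpos, mul_add]
      exact (hprop r (by omega)).2
    choose n hn d hd hnd using key
    obtain ⟨e, he⟩ := exists_pl (hyperfilter ℕ) d
    refine ⟨lseq n, lseq_mem hn, e, ?_, ?_⟩
    · obtain ⟨N, hN⟩ := he.exists
      rw [← hN]; exact hd N
    · funext k
      apply lseq_eq
      filter_upwards [he, eventually_ge_hyper k.natAbs] with N h1 h2
      rw [← h1]
      exact hnd N k (by rw [abs_le]; omega)

/-- periodic levels -/
theorem periodic_zero (x : ℤ → G) (P : ℕ) : 0 < P → ∀ k : ℤ,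
    (∀ i, tw x k (P + i) = tw x k i) → ∃ K : ℤ, ∀ j ≤ K, x j = 0 := by
  induction P using Nat.strong_induction_on with
  | _ P ih =>
    intro hP k hper
    rcases Nat.even_or_odd' P with ⟨Q, hQ | hQ⟩
    · apply ih Q (by omega) (by omega) (k - 1)
      intro i
      rw [tw_diff_even, tw_diff_even, ← hper (2 * i + 1), ← hper (2 * i), hQ]
      congr 2 <;> ring
    · refine ⟨k - 2, ?_⟩
      have h1 : ∀ t, tw x (k - 1) t = tw x (k - 1) (t + 1) := by
        intro t
        have e1 : tw x (k - 1) t = tw x (k - 1) (Q + t + 1) := by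
          rw [tw_diff_even, tw_diff_odd, ← hper (2 * t + 1), ← hper (2 * t), hQ]
          congr 2 <;> ring
        have e2 : tw x (k - 1) (t + 1) = tw x (k - 1) (Q + t + 1) := by
          rw [tw_diff_odd, tw_diff_even x k (Q + t + 1), ← hper (2 * t + 2),
            ← hper (2 * t + 1), hQ]
          congr 2 <;> ring
        rw [e1, e2]
      have h2 : ∀ i, tw x (k - 2) i = 0 := by
        intro i
        have e : k - 2 = (k - 1) - 1 := by ring
        rw [e, tw_diff_even, ← h1, sub_self]
      have h3 : ∀ r : ℕ, ∀ i, tw x (k - 2 - r) i = 0 := by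
        intro r
        induction r with
        | zero => simpa using h2
        | succ r ihr =>
          intro i
          have e : k - 2 - ((r + 1 : ℕ) : ℤ) = (k - 2 - r) - 1 := by push_cast; ring
          rw [e, tw_diff_even, ihr, ihr, sub_zero]
      intro j hj
      obtain ⟨r, hr⟩ : ∃ r : ℕ, j = k - 2 - r := ⟨(k - 2 - j).toNat, by omega⟩
      have := h3 r 0
      rwa [tw_zero, ← hr] at this

end General

variable {ℓ : ℕ} [Fact ℓ.Prime]

theorem act_smul (p : Ultrafilter ℕ) (t : ZMod ℓ) (c : ℤ → ZMod ℓ) :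
    act p (t • c) = t • act p c :=
  act_map (AddMonoidHom.mulLeft t) p c

/-- flexibility implies that zero is reached -/
theorem flex (f : ℤ → ZMod ℓ)
    (H : ∀ k : ℤ, ∃ p ∈ I0, ∃ p' ∈ I0, (∀ i < k, act p f i = act p' f i) ∧
      act p f k ≠ act p' f k) : ∃ q ∈ E, act q f = 0 := by
  apply orbit_closed
  intro N
  have key : ∀ m : ℕ, ∃ p ∈ I0, ∀ i : ℤ, -(N : ℤ) ≤ i → i < -(N : ℤ) + m → act p f i = 0 := by
    intro m
    induction m with
    | zero =>
      obtain ⟨p, hp⟩ := I0_min.prop.2.1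
      exact ⟨p, hp, fun i h1 h2 => by push_cast at h2; omega⟩
    | succ m ih =>
      obtain ⟨p, hp, h⟩ := ih
      obtain ⟨p1, hp1, p2, hp2, h12, hne⟩ := H (-(N : ℤ) + m)
      set k : ℤ := -(N : ℤ) + m with hk
      have key2 : ∀ t : ℕ, ∃ p' ∈ I0, (∀ i < k, act p' f i = act p f i) ∧
          act p' f k = act p f k + t * (act p2 f k - act p1 f k) := by
        intro t
        induction t with
        | zero => exact ⟨p, hp, fun i _ => rfl, by simp⟩
        | succ t iht =>
          obtain ⟨p', hp', h3, h4⟩ := iht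
          obtain ⟨r, hr, hrp⟩ := I0_trans hp1 hp'
          have e1 : act p' f = act r (act p1 f) := by
            rw [← hrp, act_comp (I0_sub hp1)]
          have e2 : act (r + p2) f = act p' f + act r (act p2 f - act p1 f) := by
            rw [act_comp (I0_sub hp2), e1, ← act_add]
            congr 1; abel
          have e3 : ∀ i < k, (act p2 f - act p1 f) i = 0 := by
            intro i hi
            rw [Pi.sub_apply, h12 i hi, sub_self]
          refine ⟨r + p2, I0_add (I0_sub hr) hp2, ?_, ?_⟩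
          · intro i hi
            rw [e2, Pi.add_apply, act_below r (fun j hj => e3 j (by omega)), add_zero]
            exact h3 i hi
          · rw [e2, Pi.add_apply, act_lead r e3, h4, Pi.sub_apply]
            push_cast; ring
      have hδ : act p2 f k - act p1 f k ≠ 0 := sub_ne_zero.2 (Ne.symm hne)
      obtain ⟨p', hp', h3, h4⟩ := key2
        (-(act p f k) * (act p2 f k - act p1 f k)⁻¹).val
      refine ⟨p', hp', ?_⟩
      intro i hi1 hi2
      rcases lt_or_eq_of_le (show i ≤ k by push_cast at hi2; omega) with hlt | heq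
      · rw [h3 i hlt]; exact h i hi1 (by omega)
      · rw [heq, h4, ZMod.natCast_zmod_val, mul_assoc, inv_mul_cancel₀ hδ]
        ring
  obtain ⟨p, hp, h⟩ := key (2 * N + 1)
  refine ⟨p, I0_sub hp, fun i hi => ?_⟩
  rw [abs_le] at hi
  exact h i hi.1 (by push_cast; omega)

/-- the constant germ one -/
abbrev one (ℓ : ℕ) : ℤ → ZMod ℓ := fun _ => 1

/-- nonzero multiples of elements of the orbit of one -/
def Orb (ℓ : ℕ) [Fact ℓ.Prime] : Set (ℤ → ZMod ℓ) :=
  {w | ∃ t : ZMod ℓ, t ≠ 0 ∧ ∃ q ∈ E, w = t • act q (one ℓ)}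

theorem Orb_act {w : ℤ → ZMod ℓ} (hw : w ∈ Orb ℓ) {r : Ultrafilter ℕ} (hr : r ∈ E) :
    act r w ∈ Orb ℓ := by
  obtain ⟨t, ht, q, hq, rfl⟩ := hw
  exact ⟨t, ht, r + q, E_add hr hq, by rw [act_smul, act_comp hq]⟩

/-- chains of germs with pairwise differences in `Orb` -/
def Chain (ℓ : ℕ) [Fact ℓ.Prime] (m : ℕ) : Prop :=
  ∃ v ∈ I0, v + v = v ∧ ∃ β : ℕ → ℤ → ZMod ℓ, ∃ c : ZMod ℓ, c ≠ 0 ∧
    (∀ i ≤ m, act v (β i) = β i) ∧ (∀ i ≤ m, ∀ j < i, β i - β j ∈ Orb ℓ) ∧
    (∀ j < m, β m - β j + c • one ℓ ∈ Orb ℓ)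

theorem chain_zero : Chain ℓ 0 := by
  obtain ⟨p, hp⟩ := I0_min.prop.2.1
  obtain ⟨v, hv, -, hvv⟩ := I0_idem hp
  refine ⟨v, hv, hvv, fun _ => 0, 1, one_ne_zero, fun i _ => act_zero v, ?_, ?_⟩
  · intro i hi j hj; omega
  · intro j hj; omega

theorem chain_succ (h2 : ℓ ≠ 2) (hnot : ¬ ∃ q ∈ E, act q (one ℓ) = 0) {m : ℕ}
    (h : Chain ℓ m) : Chain ℓ (m + 1) := by
  obtain ⟨v, hv, hvv, β, c, hc, hfix, hdiff, htop⟩ := h
  have hvE := I0_sub hv
  have hvz : act v (act v (one ℓ)) = act v (one ℓ) := by rw [← act_comp hvE, hvv]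
  have hD : act v (one ℓ - act v (one ℓ)) = 0 := by rw [act_sub, hvz, sub_self]
  rcases ends _ hvE hD with ⟨q, hq, d, hd, hqD⟩ | hcase
  · have hq1 : act q (one ℓ) = act q (act v (one ℓ)) + d • one ℓ := by
      rw [act_sub] at hqD
      have : act q (one ℓ) = (act q (one ℓ) - act q (act v (one ℓ))) +
        act q (act v (one ℓ)) := by abel
      rw [this, hqD, add_comm]
      congr 1
      funext i
      simp
    have hqv : q + v ∈ I0 := I0_add hq hv
    obtain ⟨v', hv', hv'q, hvv'⟩ := I0_idem hqv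
    set top : ℤ → ZMod ℓ := act q (β m + c • act v (one ℓ)) with htopdef
    have hfixq : ∀ i ≤ m, act (q + v) (β i) = act q (β i) := by
      intro i hi
      rw [act_comp hvE, hfix i hi]
    have htopv : top = act (q + v) (β m + c • one ℓ) := by
      rw [act_comp hvE, act_add v, hfix m le_rfl, act_smul]
    have htopone : top + (c * d) • one ℓ = act q (β m + c • one ℓ) := by
      rw [htopdef, act_add, act_add, act_smul, act_smul, hq1, smul_add, smul_smul]
      abel
    refine ⟨v', hv', hvv', fun i => if i ≤ m then act q (β i) else top, c * d,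
      mul_ne_zero hc hd, ?_, ?_, ?_⟩
    · intro i hi
      dsimp only
      split_ifs with h
      · rw [← hfixq i h, ← act_comp (I0_sub hqv), hv'q]
      · rw [htopv, ← act_comp (I0_sub hqv), hv'q]
    · intro i hi j hj
      dsimp only
      rw [if_pos (show j ≤ m by omega)]
      split_ifs with h
      · rw [← act_sub]
        exact Orb_act (hdiff i h j hj) hq
      · have hjm : j ≤ m := by omega
        rcases lt_or_eq_of_le hjm with hlt | heq
        · have e : top - act q (β j) = act (q + v) (β m - β j + c • one ℓ) := by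
            rw [htopv, ← hfixq j hjm, ← act_sub]
            congr 1; abel
          rw [e]
          exact Orb_act (htop j hlt) (I0_sub hqv)
        · have e : top - act q (β j) = c • act (q + v) (one ℓ) := by
            rw [heq, htopdef, act_add, act_smul, act_comp hvE]; abel
          rw [e]
          exact ⟨c, hc, q + v, I0_sub hqv, rfl⟩
    · intro j hj
      dsimp only
      have hjm : j ≤ m := by omega
      rw [if_pos hjm, if_neg (by omega)]
      have e0 : top - act q (β j) + (c * d) • one ℓ =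
          act q (β m - β j + c • one ℓ) := by
        have : top - act q (β j) + (c * d) • one ℓ =
          (top + (c * d) • one ℓ) - act q (β j) := by abel
        rw [this, htopone, ← act_sub]
        congr 1; abel
      rw [e0]
      rcases lt_or_eq_of_le hjm with hlt | heq
      · exact Orb_act (htop j hlt) hq
      · rw [heq, sub_self, zero_add, act_smul]
        exact ⟨c, hc, q, hq, rfl⟩
  · exfalso
    apply hnot
    apply flex
    intro k
    obtain ⟨q, hq, q', hq', h1, h3⟩ := nondeterminism (ℓ := ℓ) h2 k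
    have key : ∀ r ∈ E, act (r + v) (one ℓ) = act r (one ℓ) := by
      intro r hr
      have h4 := act_alt _ hcase hr
      rw [act_sub, ← act_comp hvE, sub_eq_zero] at h4
      exact h4.symm
    refine ⟨q + v, I0_add hq hv, q' + v, I0_add hq' hv, ?_, ?_⟩
    · intro i hi
      rw [key q hq, key q' hq']
      exact h1 i hi
    · rw [key q hq, key q' hq']
      exact h3

/-- Part A: zero is in the orbit of one, modulo an odd prime -/
theorem zero_mem_prime (h2 : ℓ ≠ 2) : ∃ q ∈ E, act q (one ℓ) = 0 := by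
  classical
  by_contra hnot
  have hchain : ∀ m, Chain ℓ m := by
    intro m
    induction m with
    | zero => exact chain_zero
    | succ m ih => exact chain_succ h2 hnot ih
  have hN : ∃ N : ℕ, ∀ q ∈ E, ∃ i : ℤ, |i| ≤ N ∧ act q (one ℓ) i ≠ 0 := by
    by_contra hcon
    push Not at hcon
    exact hnot (orbit_closed (one ℓ) 0 (fun N => by
      obtain ⟨q, hq, h⟩ := hcon N
      exact ⟨q, hq, fun i hi => by rw [h i hi]; rfl⟩))
  obtain ⟨N, hN⟩ := hN
  let W := (Finset.Icc (-(N : ℤ)) N) → ZMod ℓ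
  obtain ⟨v, hv, hvv, β, c, hc, hfix, hdiff, htop⟩ := hchain (Fintype.card W)
  obtain ⟨x, y, hxy, hf⟩ := Fintype.exists_ne_map_eq_of_card_lt
    (fun i : Fin (Fintype.card W + 1) => (fun j => β i j : W))
    (by rw [Fintype.card_fin]; exact Nat.lt_succ_self _)
  have hxy' : (x : ℕ) ≠ y := fun h => hxy (Fin.ext h)
  have main : ∀ x y : Fin (Fintype.card W + 1), (x : ℕ) < y →
      (fun j => β x j : W) = (fun j => β y j : W) → False := by
    intro x y hlt hf
    obtain ⟨t, ht, q, hq, he⟩ := hdiff y (by omega) x hlt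
    obtain ⟨i, hi, hne⟩ := hN q hq
    have h1 := congrFun hf ⟨i, Finset.mem_Icc.2 (abs_le.1 hi)⟩
    have h3 := congrFun he i
    rw [Pi.sub_apply, Pi.smul_apply, smul_eq_mul] at h3
    simp only at h1
    rw [h1, sub_self] at h3
    exact mul_ne_zero ht hne h3.symm
  rcases lt_or_gt_of_ne hxy' with hlt | hlt
  · exact main x y hlt hf
  · exact main y x hlt hf.symm

/-- Part B: leading elements -/
theorem leading (h2 : ℓ ≠ 2) (k : ℤ) : ∃ P ∈ E, (∀ i < k, act P (one ℓ) i = 0) ∧
    act P (one ℓ) k ≠ 0 := by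
  obtain ⟨r, hr, hr0⟩ := zero_mem_prime h2
  have h2' : (2 : ZMod ℓ) ≠ 0 := by
    intro h0
    have h3 : ((2 : ℕ) : ZMod ℓ) = 0 := by exact_mod_cast h0
    rw [ZMod.natCast_eq_zero_iff] at h3
    exact h2 ((Nat.prime_dvd_prime_iff_eq Fact.out Nat.prime_two).1 h3)
  obtain ⟨q, hq, d, hd, hqd⟩ : ∃ q ∈ E, ∃ d : ZMod ℓ, d ≠ 0 ∧ act q (one ℓ) = fun _ => d := by
    rcases ends _ hr hr0 with h | h
    · exact h
    · exfalso
      apply h2'
      have := h 0
      simp only [one] at this
      rw [← this]; norm_num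
  have hpow : ∀ t : ℕ, ∃ q' ∈ E, act q' (one ℓ) = d ^ (t + 1) • one ℓ := by
    intro t
    induction t with
    | zero =>
      refine ⟨q, hq, ?_⟩
      rw [hqd]; funext i; simp
    | succ t ih =>
      obtain ⟨q', hq', h⟩ := ih
      refine ⟨q' + q, E_add hq' hq, ?_⟩
      have e : (fun _ => d : ℤ → ZMod ℓ) = d • one ℓ := by funext i; simp
      rw [act_comp hq, hqd, e, act_smul, h, smul_smul, ← pow_succ']
  obtain ⟨q', hq', hq1⟩ : ∃ q' ∈ E, act q' (one ℓ) = one ℓ := by
    obtain ⟨q', hq', h⟩ := hpow (ℓ - 2)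
    refine ⟨q', hq', ?_⟩
    have hℓ : 2 ≤ ℓ := (Fact.out : ℓ.Prime).two_le
    have e : ℓ - 2 + 1 = ℓ - 1 := by omega
    rw [h, e, ZMod.pow_card_sub_one_eq_one hd, one_smul]
  choose n hn0 hnd hn using fun M => realize hq' (one ℓ) M
  obtain ⟨j, hE, h1, h3⟩ := separate_lim (ℓ := ℓ) h2 n (fun _ => 0) (fun M => (hn0 M).ne')
    (fun M => ⟨hn0 M, hnd M⟩) (by
      intro M i hi hi'
      have e := hn M i (by rw [abs_le]; omega)
      rw [hq1, tw_one_germ] at e
      have e2 : pos i 0 = 0 := by simp [pos]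
      rw [e, e2, a_zero]; simp)
  have hz : ∀ k : ℤ, act (lseq (fun M => 2 ^ (j M) * 0)) (one ℓ) k = 1 := by
    intro k
    apply lseq_eq
    refine Eventually.of_forall fun M => ?_
    have e2 : pos k (2 ^ (j M) * 0) = 0 := by simp [pos]
    rw [e2, tw_zero]
  set p := lseq (fun M => 2 ^ (j M) * n M) with hp
  have hP : (∀ i ≤ 0, act (r + p) (one ℓ) i = 0) ∧ act (r + p) (one ℓ) 1 ≠ 0 := by
    have e : act (r + p) (one ℓ) = act r (act p (one ℓ) - one ℓ) := by
      rw [act_comp hE, act_sub, hr0, sub_zero]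
    have hg : ∀ i ≤ 0, (act p (one ℓ) - one ℓ) i = 0 := by
      intro i hi
      have := h1 i hi
      rw [hz] at this
      rw [Pi.sub_apply, this]; simp
    rw [e]
    refine ⟨fun i hi => act_below r (fun j hj => hg j (by omega)), ?_⟩
    rw [act_lead r (fun j hj => hg j (by omega)), Pi.sub_apply]
    rw [hz] at h3
    exact sub_ne_zero.2 h3
  obtain ⟨P, hPE, hPs⟩ := exists_shift (1 - k) (E_add hr hE)
  refine ⟨P, hPE, ?_, ?_⟩
  · intro i hi
    rw [hPs]
    exact hP.1 _ (by omega)
  · rw [hPs]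
    have e : k + (1 - k) = 1 := by ring
    rw [e]
    exact hP.2

/-- Part C: the lower levels of any germ can be killed -/
theorem kill_low (h2 : ℓ ≠ 2) (f : ℤ → ZMod ℓ) : ∃ q ∈ E, ∃ K : ℤ, ∀ i ≤ K, act q f i = 0 := by
  classical
  by_cases H : ∀ k : ℤ, ∃ p ∈ I0, ∃ p' ∈ I0, (∀ i < k, act p f i = act p' f i) ∧
      act p f k ≠ act p' f k
  · obtain ⟨q, hq, h⟩ := flex f H
    exact ⟨q, hq, 0, fun i _ => by rw [h]; rfl⟩
  · push Not at H
    obtain ⟨k, hk⟩ := H
    obtain ⟨p0, hp0⟩ := I0_min.prop.2.1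
    obtain ⟨v, hv, -, hvv⟩ := I0_idem hp0
    have hvE := I0_sub hv
    set x := act v f with hx
    have hvx : act v x = x := by rw [hx, ← act_comp hvE, hvv]
    by_cases hP : ∃ N m : ℕ, 0 < m ∧ ∀ i, tw x (-(N : ℤ)) (m + i) = tw x (-(N : ℤ)) i
    · obtain ⟨N, m, hm, hper⟩ := hP
      obtain ⟨K, hK⟩ := periodic_zero x m hm _ hper
      exact ⟨v, hvE, K, hK⟩
    · exfalso
      push Not at hP
      have key : ∀ N : ℕ, ∃ m i : ℕ, 0 < m ∧ 0 < i ∧ ∃ d : ZMod ℓ, d ≠ 0 ∧
          ∀ t : ℤ, |t| ≤ N → tw x t (pos t (2 ^ N * (m + i))) =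
            tw x t (pos t (2 ^ N * i)) + d := by
        intro N
        obtain ⟨n, hn0, ⟨m, rfl⟩, hn⟩ := realize hvE x N
        have hm : 0 < m := by
          rcases Nat.eq_zero_or_pos m with rfl | hm
          · simp at hn0
          · exact hm
        set B : ℕ → ℕ → ZMod ℓ := fun r j =>
          tw x (-(N : ℤ) + r) (2 ^ r * m + j) - tw x (-(N : ℤ) + r) j with hBdef
        have hpos : ∀ r : ℕ, ∀ y : ℕ, pos (-(N : ℤ) + r) (2 ^ N * y) = 2 ^ r * y := by
          intro r y
          rw [pos_mul N _ (by omega)]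
          congr 2; omega
        have hB : ∀ r j, B (r + 1) (j + 1) = B (r + 1) j + B r ((j + 1) / 2) := by
          intro r j
          simp only [hBdef]
          rw [← add_assoc, tw_succ, tw_succ x _ j]
          have e : (2 ^ (r + 1) * m + j + 1) / 2 = 2 ^ r * m + (j + 1) / 2 := by
            have : 2 ^ (r + 1) * m = 2 * (2 ^ r * m) := by ring
            omega
          have e2 : -(N : ℤ) + ((r + 1 : ℕ) : ℤ) - 1 = -(N : ℤ) + r := by push_cast; ring
          rw [e, e2]
          ring
        have h0 : ∀ r ≤ 2 * N, B r 0 = 0 := by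
          intro r hr
          simp only [hBdef, add_zero]
          rw [← hpos, hn _ (by rw [abs_le]; omega), hvx, tw_zero, sub_self]
        have hex : ∃ i, B 0 i ≠ 0 := by
          obtain ⟨j, hj⟩ := hP N m hm
          refine ⟨j, ?_⟩
          simp only [hBdef, pow_zero, one_mul, Nat.cast_zero, add_zero]
          exact sub_ne_zero.2 hj
        have hi0 : 0 < Nat.find hex := by
          rw [Nat.find_pos]
          intro hc
          exact hc (h0 0 (by omega))
        have hprop := propagate B (2 * N) hB h0 (Nat.find hex)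
          (fun j hj => by simpa using Nat.find_min hex hj) hi0
        refine ⟨m, Nat.find hex, hm, hi0, B 0 (Nat.find hex), Nat.find_spec hex, ?_⟩
        intro i hi
        rw [abs_le] at hi
        obtain ⟨r, hr⟩ : ∃ r : ℕ, i = -(N : ℤ) + r := ⟨(i + N).toNat, by omega⟩
        rw [hr, hpos, hpos, mul_add]
        have h5 := (hprop r (by omega)).2
        rw [← h5]
        simp only [hBdef]
        ring
      choose m i hm hi d hd hmi using key
      obtain ⟨e, he⟩ := exists_pl (hyperfilter ℕ) d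
      have hE1 : lseq (fun N => 2 ^ N * i N) ∈ E :=
        lseq_mem fun N => ⟨Nat.mul_pos (by positivity) (hi N), dvd_mul_right _ _⟩
      have hE2 : lseq (fun N => 2 ^ N * (m N + i N)) ∈ E :=
        lseq_mem fun N => ⟨Nat.mul_pos (by positivity) (by have := hi N; omega),
          dvd_mul_right _ _⟩
      have he0 : e ≠ 0 := by
        obtain ⟨N, hN⟩ := he.exists
        rw [← hN]; exact hd N
      have hdiff : act (lseq (fun N => 2 ^ N * (m N + i N))) x =
          act (lseq (fun N => 2 ^ N * i N)) x + e • one ℓ := by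
        funext t
        apply lseq_eq
        filter_upwards [he, eventually_ge_hyper t.natAbs,
          lseq_spec (fun N => 2 ^ N * i N) x t] with N h1 h3 h4
        rw [hmi N t (by rw [abs_le]; omega), h4, h1]
        simp
      obtain ⟨P, hPE, hP1, hP2⟩ := leading (ℓ := ℓ) h2 k
      have hc1 : ∀ p ∈ E, act (P + (p + v)) f = act P (act p x) := by
        intro p hp
        rw [act_comp (E_add hp hvE), act_comp hvE]
      have hfin := hk (P + (lseq (fun N => 2 ^ N * (m N + i N)) + v))
        (I0_add hPE (I0_add hE2 hv)) (P + (lseq (fun N => 2 ^ N * i N) + v))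
        (I0_add hPE (I0_add hE1 hv)) (by
          intro t ht
          rw [hc1 _ hE2, hc1 _ hE1, hdiff, act_add, act_smul, Pi.add_apply, Pi.smul_apply,
            hP1 t ht, smul_zero, add_zero])
      rw [hc1 _ hE2, hc1 _ hE1, hdiff, act_add, act_smul, Pi.add_apply, Pi.smul_apply,
        smul_eq_mul] at hfin
      have : e * act P (one ℓ) k = 0 := by
        have h6 := hfin
        rwa [add_eq_left] at h6
      exact mul_ne_zero he0 hP2 this

end Pool.Agent.helper10.BPC
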