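import Mathlib
import Pool.Agent.helper10.BPC.Prime

set_option autoImplicit false

/-!
# Zero windows modulo an arbitrary odd number
-/

namespace Pool.Agent.helper10.BPC

open Filter

attribute [local instance] Ultrafilter.add Ultrafilter.addSemigroup

/-- zero windows -/
def ZeroWin (h : ℕ) : Prop :=
  ∀ N : ℕ, ∃ n, 0 < n ∧ 2 ^ N ∣ n ∧ ∀ i : ℤ, |i| ≤ N → h ∣ a (pos i n)

theorem zeroWin_step (ℓ h : ℕ) (hℓ : ℓ.Prime) (h2 : ℓ ≠ 2) (hh : 0 < h) (ih : ZeroWin h) :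
    ZeroWin (ℓ * h) := by
  have : Fact ℓ.Prime := ⟨hℓ⟩
  have : NeZero (ℓ * h) := ⟨Nat.mul_ne_zero hℓ.ne_zero hh.ne'⟩
  choose n hn0 hnd hn using ih
  have hE : lseq n ∈ E := lseq_mem fun M => ⟨hn0 M, hnd M⟩
  let ι : ZMod ℓ →+ ZMod (ℓ * h) := ZMod.lift ℓ
    ⟨zmultiplesHom (ZMod (ℓ * h)) (h : ZMod (ℓ * h)), by
      rw [zmultiplesHom_apply, zsmul_eq_mul]
      exact_mod_cast ZMod.natCast_self (ℓ * h)⟩
  have hι : ∀ b : ℕ, ι (b : ZMod ℓ) = ((h * b : ℕ) : ZMod (ℓ * h)) := by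
    intro b
    have : ((b : ℤ) : ZMod ℓ) = (b : ZMod ℓ) := by simp
    rw [← this]
    simp only [ι]
    rw [ZMod.lift_coe]
    show (b : ℤ) • (h : ZMod (ℓ * h)) = _
    rw [zsmul_eq_mul]
    push_cast
    ring
  have hf : ∀ k : ℤ, ∃ y : ZMod ℓ,
      act (lseq n) (fun _ => (1 : ZMod (ℓ * h))) k = ι y := by
    intro k
    obtain ⟨M, hM1, hM2⟩ := ((lseq_spec n (fun _ => (1 : ZMod (ℓ * h))) k).and
      (eventually_ge_hyper k.natAbs)).exists
    obtain ⟨b, hb⟩ := hn M k (by rw [abs_le]; omega)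
    refine ⟨b, ?_⟩
    rw [← hM1, tw_const, nsmul_eq_mul, mul_one, hb, hι]
  choose f hf using hf
  obtain ⟨q, hq, K, hK⟩ := kill_low (ℓ := ℓ) h2 f
  have hact : act (q + lseq n) (fun _ => (1 : ZMod (ℓ * h))) = fun i => ι (act q f i) := by
    rw [act_comp hE, ← act_map]
    congr 1
    funext k
    exact hf k
  intro N
  obtain ⟨p, hp, hps⟩ := exists_shift (K - N) (E_add hq hE)
  obtain ⟨m, hm0, hmd, hm⟩ := realize hp (fun _ => (1 : ZMod (ℓ * h))) N
  refine ⟨m, hm0, hmd, fun i hi => ?_⟩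
  have h1 := hm i hi
  rw [hps, hact] at h1
  dsimp only at h1
  rw [hK _ (by rw [abs_le] at hi; omega), map_zero, tw_const, nsmul_eq_mul, mul_one] at h1
  exact (ZMod.natCast_eq_zero_iff _ _).1 h1

theorem zeroWin_odd (h : ℕ) : Odd h → ZeroWin h := by
  induction h using induction_on_primes with
  | zero => intro h; exact absurd h (by decide)
  | one =>
    intro _ N
    exact ⟨2 ^ N, by positivity, dvd_rfl, fun i _ => one_dvd _⟩
  | prime_mul p h hp ih =>
    intro hodd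
    rw [Nat.odd_mul] at hodd
    exact zeroWin_step p h hp (by rintro rfl; exact absurd hodd.1 (by decide))
      hodd.2.pos (ih hodd.2)

theorem a_even (n : ℕ) (hn : 1 ≤ n) : 2 ∣ a n := by
  induction n using Nat.strong_induction_on with
  | _ n ih =>
    rcases n with _ | _ | n
    · omega
    · rw [a_succ]; simp [a_zero]
    · rw [a_succ]
      exact dvd_add (ih _ (by omega) (by omega)) (ih _ (by omega) (by omega))

theorem a_odd_mod (n : ℕ) : a (2 * n + 1) % 4 = 2 := by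
  induction n with
  | zero => simp [a_succ, a_zero]
  | succ n ih =>
    have e1 := a_succ (2 * n + 2)
    have e2 := a_succ (2 * n + 1)
    have e3 : (2 * n + 2 + 1) / 2 = n + 1 := by omega
    have e4 : (2 * n + 1 + 1) / 2 = n + 1 := by omega
    rw [e3] at e1
    rw [e4] at e2
    have e5 : 2 * (n + 1) + 1 = 2 * n + 2 + 1 := by ring
    have e6 := a_even (n + 1) (by omega)
    rw [e5, e1]
    simp only [Nat.add_assoc, Nat.reduceAdd] at *
    omega

theorem four_dvd (k : ℕ) : 4 ∣ a (4 * k + 2) := by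
  have e1 := a_succ (4 * k + 1)
  have e2 : (4 * k + 1 + 1) / 2 = 2 * k + 1 := by omega
  rw [e2] at e1
  have e3 := a_odd_mod k
  have e4 := a_odd_mod (2 * k)
  have e5 : 2 * (2 * k) + 1 = 4 * k + 1 := by ring
  rw [e5] at e4
  have e6 : 4 * k + 1 + 1 = 4 * k + 2 := rfl
  rw [e6] at e1
  omega

/-- the main statement for the sequence `a` -/
theorem main_a (h : ℕ) (hodd : Odd h) (K : ℕ) : ∃ n, K < n ∧ 4 * h ∣ a n := by
  obtain ⟨n, hn0, hnd, hn⟩ := zeroWin_odd h hodd (K + 2)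
  obtain ⟨m, rfl⟩ := hnd
  have hm : 0 < m := by
    rcases Nat.eq_zero_or_pos m with rfl | hm
    · simp at hn0
    · exact hm
  have hbig : K < 2 ^ K := Nat.lt_two_pow_self
  have h4 : 2 ^ (K + 2) * m = 4 * (2 ^ K * m) := by ring
  have h2K : 2 ^ K ≤ 2 ^ K * m := Nat.le_mul_of_pos_right _ hm
  refine ⟨4 * (2 ^ K * m) + 2, by omega, ?_⟩
  have d0 : h ∣ a (4 * (2 ^ K * m)) := by
    have := hn 0 (by rw [abs_zero]; omega)
    rwa [pos_zero, h4] at this
  have d1 : h ∣ a (2 * (2 ^ K * m)) := by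
    have := hn (-(1 : ℕ) : ℤ) (by rw [abs_le]; omega)
    rw [pos_neg_lt, h4] at this
    have e : 4 * (2 ^ K * m) / 2 ^ 1 = 2 * (2 ^ K * m) := by omega
    rwa [e] at this
  have d2 : h ∣ a (2 ^ K * m) := by
    have := hn (-(2 : ℕ) : ℤ) (by rw [abs_le]; push_cast; omega)
    rw [pos_neg_lt, h4] at this
    have e : 4 * (2 ^ K * m) / 2 ^ 2 = 2 ^ K * m := by omega
    rwa [e] at this
  have e1 : a (4 * (2 ^ K * m) + 2) =
      a (4 * (2 ^ K * m)) + a (2 * (2 ^ K * m)) + (a (2 * (2 ^ K * m)) + a (2 ^ K * m)) := by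
    have i1 := a_succ (4 * (2 ^ K * m) + 1)
    have i2 := a_succ (4 * (2 ^ K * m))
    have i3 := a_succ (2 * (2 ^ K * m))
    have j1 : (4 * (2 ^ K * m) + 1 + 1) / 2 = 2 * (2 ^ K * m) + 1 := by omega
    have j2 : (4 * (2 ^ K * m) + 1) / 2 = 2 * (2 ^ K * m) := by omega
    have j3 : (2 * (2 ^ K * m) + 1) / 2 = 2 ^ K * m := by omega
    rw [j1] at i1
    rw [j2] at i2
    rw [j3] at i3
    rw [i2, i3] at i1
    exact i1
  have h5 : h ∣ a (4 * (2 ^ K * m) + 2) := by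
    rw [e1]
    exact dvd_add (dvd_add d0 d1) (dvd_add d1 d2)
  have hcop : Nat.Coprime 4 h := by
    have : Nat.Coprime 2 h := (Nat.coprime_two_left).2 hodd
    have h6 : Nat.Coprime (2 ^ 2) h := Nat.Coprime.pow_left 2 this
    simpa using h6
  exact hcop.mul_dvd_of_dvd_of_dvd (four_dvd _) h5

end Pool.Agent.helper10.BPC
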