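import Mathlib
import Pool.Agent.helper10.BPC.Main

set_option autoImplicit false

/-!
# Binary partitions

The identification of `b_2 (2 n)` with the sequence `a n` (adapted from
`Pool.Agent.helper41.BP.Partition`), and the final statement.
-/

namespace Pool.Agent.helper10.BPC

/-- The number of binary partitions of `n`: partitions of `n` all of whose parts are powers
of two. -/
noncomputable def b2 (n : ℕ) : ℕ :=
  Nat.card {π : n.Partition // ∀ i ∈ π.parts, ∃ k : ℕ, i = 2 ^ k}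

def SS (n : ℕ) : Set (Multiset ℕ) := {s | (∀ i ∈ s, ∃ k : ℕ, i = 2 ^ k) ∧ s.sum = n}

theorem SS_eq (n : ℕ) : SS n = (fun π : n.Partition => π.parts) ''
    {π : n.Partition | ∀ i ∈ π.parts, ∃ k : ℕ, i = 2 ^ k} := by
  ext s
  constructor
  · rintro ⟨h1, h2⟩
    refine ⟨⟨s, ?_, h2⟩, h1, rfl⟩
    intro i hi
    obtain ⟨k, rfl⟩ := h1 i hi
    positivity
  · rintro ⟨π, h1, rfl⟩
    exact ⟨h1, π.parts_sum⟩

theorem SS_finite (n : ℕ) : (SS n).Finite := by
  rw [SS_eq]
  exact Set.Finite.image _ (Set.toFinite _)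

theorem b2_eq (n : ℕ) : b2 n = (SS n).ncard := by
  rw [SS_eq, Set.ncard_image_of_injective]
  · rfl
  · intro π π' h
    exact Nat.Partition.ext h

theorem SS_zero : SS 0 = {0} := by
  ext s
  simp only [SS, Set.mem_ofPred_eq, Set.mem_singleton_iff]
  constructor
  · rintro ⟨h1, h2⟩
    by_contra hne
    obtain ⟨i, hi⟩ := Multiset.exists_mem_of_ne_zero hne
    obtain ⟨k, rfl⟩ := h1 i hi
    have := Multiset.single_le_sum (fun _ _ => Nat.zero_le _) _ hi
    have hpos : 0 < 2 ^ k := by positivity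
    omega
  · rintro rfl
    simp

theorem even_of_not_mem {s : Multiset ℕ} (h1 : ∀ i ∈ s, ∃ k : ℕ, i = 2 ^ k) (h : 1 ∉ s) :
    ∀ i ∈ s, ∃ k : ℕ, i = 2 * 2 ^ k := by
  intro i hi
  obtain ⟨k, rfl⟩ := h1 i hi
  rcases k with _ | k
  · exact absurd (by simpa using hi) h
  · exact ⟨k, by rw [pow_succ]; ring⟩

theorem cons_mem (n : ℕ) {s : Multiset ℕ} (hs : s ∈ SS n) : (1 ::ₘ s) ∈ SS (n + 1) := by
  obtain ⟨h1, h2⟩ := hs
  refine ⟨?_, by rw [Multiset.sum_cons, h2]; ring⟩
  intro i hi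
  rcases Multiset.mem_cons.1 hi with h | h
  · exact ⟨0, by simpa using h⟩
  · exact h1 i h

theorem erase_mem (n : ℕ) {s : Multiset ℕ} (hs : s ∈ SS (n + 1)) (h : 1 ∈ s) :
    s.erase 1 ∈ SS n ∧ 1 ::ₘ s.erase 1 = s := by
  obtain ⟨h1, h2⟩ := hs
  have e := Multiset.cons_erase h
  refine ⟨⟨fun i hi => h1 i (Multiset.mem_of_mem_erase hi), ?_⟩, e⟩
  rw [← e, Multiset.sum_cons] at h2
  omega

theorem SS_odd (m : ℕ) : SS (2 * m + 1) = (fun s => 1 ::ₘ s) '' SS (2 * m) := by
  ext s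
  constructor
  · intro hs
    have h1 : 1 ∈ s := by
      by_contra h
      have h2 := even_of_not_mem hs.1 h
      have h3 : 2 ∣ s.sum := Multiset.dvd_sum fun x hx => by
        obtain ⟨k, hk⟩ := h2 x hx
        exact ⟨2 ^ k, hk⟩
      rw [hs.2] at h3
      omega
    exact ⟨_, (erase_mem _ hs h1).1, (erase_mem _ hs h1).2⟩
  · rintro ⟨s, hs, rfl⟩
    exact cons_mem _ hs

theorem SS_even (m : ℕ) : SS (2 * (m + 1)) = (fun s => 1 ::ₘ s) '' SS (2 * m + 1) ∪
    (fun s : Multiset ℕ => s.map (fun i => 2 * i)) '' SS (m + 1) := by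
  ext s
  constructor
  · intro hs
    by_cases h1 : 1 ∈ s
    · left
      exact ⟨_, (erase_mem (2 * m + 1) hs h1).1, (erase_mem (2 * m + 1) hs h1).2⟩
    · right
      have h2 := even_of_not_mem hs.1 h1
      have e : (s.map (fun i => i / 2)).map (fun i => 2 * i) = s := by
        rw [Multiset.map_map]
        conv_rhs => rw [← Multiset.map_id s]
        apply Multiset.map_congr rfl
        intro i hi
        obtain ⟨k, rfl⟩ := h2 i hi
        simp
      refine ⟨s.map (fun i => i / 2), ⟨?_, ?_⟩, e⟩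
      · intro i hi
        obtain ⟨j, hj, rfl⟩ := Multiset.mem_map.1 hi
        obtain ⟨k, rfl⟩ := h2 j hj
        exact ⟨k, by simp⟩
      · have h3 := congrArg Multiset.sum e
        rw [Multiset.sum_map_mul_left, hs.2] at h3
        rw [Multiset.map_id'] at h3
        omega
  · rintro (⟨s, hs, rfl⟩ | ⟨s, hs, rfl⟩)
    · exact cons_mem _ hs
    · refine ⟨?_, ?_⟩
      · intro i hi
        obtain ⟨j, hj, rfl⟩ := Multiset.mem_map.1 hi
        obtain ⟨k, rfl⟩ := hs.1 j hj
        exact ⟨k + 1, by rw [pow_succ]; ring⟩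
      · show (s.map (fun i => 2 * i)).sum = _
        rw [Multiset.sum_map_mul_left, Multiset.map_id', hs.2]

theorem cons_inj : Function.Injective (fun s : Multiset ℕ => 1 ::ₘ s) := fun s t h =>
  (Multiset.cons_inj_right 1).1 h

theorem b2_zero : b2 0 = 1 := by
  rw [b2_eq, SS_zero, Set.ncard_singleton]

theorem b2_odd (m : ℕ) : b2 (2 * m + 1) = b2 (2 * m) := by
  rw [b2_eq, b2_eq, SS_odd, Set.ncard_image_of_injective _ cons_inj]

theorem b2_even (m : ℕ) : b2 (2 * (m + 1)) = b2 (2 * m + 1) + b2 (m + 1) := by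
  rw [b2_eq, b2_eq, b2_eq, SS_even, Set.ncard_union_eq ?_ ((SS_finite _).image _)
    ((SS_finite _).image _), Set.ncard_image_of_injective _ cons_inj,
    Set.ncard_image_of_injective]
  · apply Multiset.map_injective
    intro x y h
    simpa using h
  · rw [Set.disjoint_left]
    rintro s ⟨t, ht, rfl⟩ ⟨t', ht', h⟩
    have h1 : 1 ∈ t'.map (fun i => 2 * i) := by
      have h' : t'.map (fun i => 2 * i) = 1 ::ₘ t := h
      rw [h']; exact Multiset.mem_cons_self 1 t
    obtain ⟨j, _, hj⟩ := Multiset.mem_map.1 h1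
    omega

theorem b2_two_mul (n : ℕ) : b2 (2 * n) = a n := by
  induction n using Nat.strong_induction_on with
  | _ n ih =>
    rcases n with _ | n
    · rw [Nat.mul_zero, b2_zero, a_zero]
    · rw [b2_even, b2_odd, ih n (by omega), a_succ]
      congr 1
      rcases Nat.even_or_odd' (n + 1) with ⟨k, hk | hk⟩
      · rw [hk, ih k (by omega)]; congr 1; omega
      · rw [hk, b2_odd, ih k (by omega)]; congr 1; omega

/-- Alkauskas' question, positive answer. -/
theorem infinite_b2 (h : ℕ) (hh : 0 < h) (h8 : ¬ 8 ∣ h) : {n : ℕ | h ∣ b2 n}.Infinite := by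
  obtain ⟨t, m, hm, rfl⟩ := Nat.exists_eq_two_pow_mul_odd hh.ne'
  have ht : t ≤ 2 := by
    by_contra hcon
    apply h8
    have : 2 ^ 3 ∣ 2 ^ t := pow_dvd_pow 2 (by omega)
    exact (by simpa using this : 8 ∣ 2 ^ t).mul_right m
  rw [Set.infinite_iff_exists_gt]
  intro K
  obtain ⟨n, hn, hd⟩ := main_a m hm K
  refine ⟨2 * n, ?_, by omega⟩
  show 2 ^ t * m ∣ b2 (2 * n)
  rw [b2_two_mul]
  have h4 : 2 ^ t * m ∣ 4 * m := by
    apply Nat.mul_dvd_mul_right
    have : 2 ^ t ∣ 2 ^ 2 := pow_dvd_pow 2 ht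
    simpa using this
  exact h4.trans hd

end Pool.Agent.helper10.BPC
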